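import Pool.Agent.TH660.NN.Complete
import Pool.Agent.TH660.RB.Common
import Pool.Agent.H601R2.PP
import Pool.Agent.H578R2.Med.NPClos
import Pool.Agent.H671R2.GraphEnc
import Pool.Agent.H673R2.Search
import Pool.Agent.NPC.Sat
import Pool.Agent.NPC.Classes
import Pool.Agent.H642R2.TMSim

/-!
# MP_8c0258_lc: the 2-interval-pattern problem for the model `{<, ≬}` over disjoint ground sets

The problem is `NP`-complete, even if each interval is the right interval of at most one 2-interval
and the left interval of at most two (so the graph is a forest of maximum degree three). The reduction is from SAT, via hitting sets: the graph has a column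
for each element (the elements are the literals of the variables) and a round for each set. A column
that is not in the hitting set has one more edge, which blocks the slot `1` of the column in the
first block; the gadgets transport this through all rounds. In each round there are tokens which are
moved to the left or stay in their column, and the place where the value changes must be a column of
the hitting set that belongs to the set of the round.
-/

set_option autoImplicit false

namespace Pool.Agent.Results.MP_8c0258_lc.ForestNPComplete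

open Pool.Agent.NPC Pool.Agent.NPC.H634R2 Pool.Agent.H673R2 Pool.Agent.TH660.RB Pool.Agent.TH660.NN

/-! ### 2-intervals -/

/-- The closed interval `[a, b]` of the real line, for natural numbers `a ≤ b`, given by the pair
`(a, b)`. -/
abbrev Ivl : Type := ℕ × ℕ

/-- `I < J`: every point of `I` is smaller than every point of `J`. -/
def Lt (I J : Ivl) : Prop := I.2 < J.1

/-- The intervals `I` and `J` do not intersect. -/
def Apart (I J : Ivl) : Prop := Lt I J ∨ Lt J I

/-- A pair of intervals. -/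
abbrev TwoIvl : Type := Ivl × Ivl

/-- `D = (I, J)` is a 2-interval: `I` and `J` are (nonempty) intervals and `I < J`. -/
def IsTwo (D : TwoIvl) : Prop := D.1.1 ≤ D.1.2 ∧ D.2.1 ≤ D.2.2 ∧ Lt D.1 D.2

/-- The 2-intervals `D` and `D'` are disjoint. -/
def Disj (D D' : TwoIvl) : Prop :=
  Apart D.1 D'.1 ∧ Apart D.1 D'.2 ∧ Apart D.2 D'.1 ∧ Apart D.2 D'.2

/-- `D` precedes `D'`: `I₁ < J₁ < I₂ < J₂`. -/
def Precedes (D D' : TwoIvl) : Prop := Lt D.1 D.2 ∧ Lt D.2 D'.1 ∧ Lt D'.1 D'.2

/-- `D` crosses `D'`: `I₁ < I₂ < J₁ < J₂`. -/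
def Crosses (D D' : TwoIvl) : Prop := Lt D.1 D'.1 ∧ Lt D'.1 D.2 ∧ Lt D.2 D'.2

/-- The set `S` of 2-intervals is comparable for the model `{<, ≬}`: any two distinct members are
disjoint, and one of them precedes or crosses the other one. -/
def Comparable (S : Finset TwoIvl) : Prop :=
  ∀ D ∈ S, ∀ D' ∈ S, D ≠ D' →
    Disj D D' ∧ ((Precedes D D' ∨ Crosses D D') ∨ (Precedes D' D ∨ Crosses D' D))

/-- The interval ground set of a family of 2-intervals. -/
def ground (F : List TwoIvl) : Set Ivl := {I | ∃ D ∈ F, I = D.1 ∨ I = D.2}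

/-- `F` is a finite set of 2-intervals (a list without repetition) with disjoint interval ground
set. -/
def Fam (F : List TwoIvl) : Prop :=
  F.Nodup ∧ (∀ D ∈ F, IsTwo D) ∧ ∀ I ∈ ground F, ∀ J ∈ ground F, I ≠ J → Apart I J

/-- Each interval is the right interval of at most one member of `F`, and the left interval of at
most two members of `F`. (So each interval belongs to at most three members of `F`.) -/
def Thin (F : List TwoIvl) : Prop :=
  (∀ D ∈ F, ∀ D' ∈ F, D.2 = D'.2 → D = D') ∧
    ∀ D ∈ F, ∀ D' ∈ F, ∀ D'' ∈ F, D.1 = D'.1 → D.1 = D''.1 → D = D' ∨ D = D'' ∨ D' = D''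

/-- The graph whose vertices are the intervals and whose edges are the 2-intervals in `F`. -/
def graph (F : List TwoIvl) : SimpleGraph Ivl := SimpleGraph.fromRel (fun I J => (I, J) ∈ F)

/-- `S` is a comparable subset of `F`. -/
def Sub (F : List TwoIvl) (S : Finset TwoIvl) : Prop := (∀ D ∈ S, D ∈ F) ∧ Comparable S

/-- The instances of the decision problem: a family of 2-intervals and a number. -/
abbrev Inst : Type := List TwoIvl × ℕ

/-- The valid instances: the ground set of the family is disjoint, and each interval is the right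
interval of at most one member and the left interval of at most two members of the family. -/
def Valid (I : Inst) : Prop := Fam I.1 ∧ Thin I.1

/-- The decision problem: is there a comparable subset with at least `K` members? -/
def HasSol (I : Inst) : Prop := ∃ S : Finset TwoIvl, Sub I.1 S ∧ I.2 ≤ S.card

/-! ### The graph is a forest -/

theorem graph_adj {F : List TwoIvl} {I J : Ivl} :
    (graph F).Adj I J ↔ I ≠ J ∧ ((I, J) ∈ F ∨ (J, I) ∈ F) := by
  unfold graph
  rw [SimpleGraph.fromRel_adj]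

theorem acyclic {F : List TwoIvl} (hF : ∀ D ∈ F, IsTwo D)
    (hT : ∀ D ∈ F, ∀ D' ∈ F, D.2 = D'.2 → D = D') : (graph F).IsAcyclic := by
  classical
  intro v c hc
  obtain ⟨u, hu, hmax⟩ := Finset.exists_max_image c.support.toFinset (fun I => I.2)
    ⟨v, List.mem_toFinset.2 c.start_mem_support⟩
  rw [List.mem_toFinset] at hu
  have hc' : (c.rotate u hu).IsCycle := (SimpleGraph.Walk.isCycle_rotate hu).2 hc
  have hnil := hc'.not_nil
  have h1 := (c.rotate u hu).adj_snd hnil
  have h2 := (c.rotate u hu).adj_penultimate hnil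
  have hne := hc'.snd_ne_penultimate
  have key : ∀ w ∈ (c.rotate u hu).support, (graph F).Adj u w → (w, u) ∈ F := by
    intro w hw hadj
    rw [SimpleGraph.Walk.mem_support_rotate_iff] at hw
    have h3 := hmax w (List.mem_toFinset.2 hw)
    rcases (graph_adj.1 hadj).2 with h | h
    · have h4 := hF _ h
      unfold IsTwo Lt at h4
      simp only at h3 h4
      omega
    · exact h
  have k1 := key _ (SimpleGraph.Walk.getVert_mem_support _ _) h1
  have k2 := key _ (SimpleGraph.Walk.getVert_mem_support _ _) h2.symm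
  have h5 := hT _ k1 _ k2 rfl
  exact hne (congrArg Prod.fst h5)

theorem ncard_le {F : List TwoIvl}
    (hT : ∀ D ∈ F, ∀ D' ∈ F, D.2 = D'.2 → D = D')
    (hT' : ∀ D ∈ F, ∀ D' ∈ F, ∀ D'' ∈ F, D.1 = D'.1 → D.1 = D''.1 → D = D' ∨ D = D'' ∨ D' = D'')
    (I : Ivl) : {J | (graph F).Adj I J}.ncard ≤ 3 := by
  have h1 : {J | (graph F).Adj I J} ⊆ {J | (J, I) ∈ F} ∪ {J | (I, J) ∈ F} := by
    intro J hJ
    rcases (graph_adj.1 hJ).2 with h | h
    · exact Or.inr h
    · exact Or.inl h
  have hf1 : {J : Ivl | (J, I) ∈ F}.Finite := by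
    refine (F.map Prod.fst).finite_toSet.subset ?_
    intro J hJ
    exact List.mem_map.2 ⟨_, hJ, rfl⟩
  have hf2 : {J : Ivl | (I, J) ∈ F}.Finite := by
    refine (F.map Prod.snd).finite_toSet.subset ?_
    intro J hJ
    exact List.mem_map.2 ⟨_, hJ, rfl⟩
  have h2 : {J : Ivl | (J, I) ∈ F}.ncard ≤ 1 := by
    rw [Set.ncard_le_one hf1]
    intro J hJ J' hJ'
    exact congrArg Prod.fst (hT _ hJ _ hJ' rfl)
  have h3 : {J : Ivl | (I, J) ∈ F}.ncard ≤ 2 := by
    by_contra hlt
    push Not at hlt
    obtain ⟨J, J', J'', hJ, hJ', hJ'', n1, n2, n3⟩ := (Set.two_lt_ncard_iff hf2).1 hlt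
    rcases hT' _ hJ _ hJ' _ hJ'' rfl rfl with h | h | h
    · exact n1 (congrArg Prod.snd h)
    · exact n2 (congrArg Prod.snd h)
    · exact n3 (congrArg Prod.snd h)
  calc {J | (graph F).Adj I J}.ncard ≤ ({J | (J, I) ∈ F} ∪ {J | (I, J) ∈ F}).ncard :=
        Set.ncard_le_ncard h1 (hf1.union hf2)
    _ ≤ {J | (J, I) ∈ F}.ncard + {J | (I, J) ∈ F}.ncard := Set.ncard_union_le _ _
    _ ≤ 3 := by omega

/-! ### The vertices as numbers -/

/-- the number of a vertex -/
def pos (n b i s : ℕ) : ℕ := (b * (n + 1) + i) * 8 + s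

theorem pos_lt {n b i s b' i' s' : ℕ} (hi : i ≤ n) (hi' : i' ≤ n) (hs : s < 8) (hs' : s' < 8) :
    pos n b i s < pos n b' i' s' ↔ Lx b i s b' i' s' := by
  unfold pos Lx
  rcases lt_trichotomy b b' with h | h | h
  · have h1 : (b + 1) * (n + 1) ≤ b' * (n + 1) := Nat.mul_le_mul_right _ h
    have h2 : (b + 1) * (n + 1) = b * (n + 1) + n + 1 := by ring
    simp only [h, true_or, iff_true]
    omega
  · subst h
    simp only [lt_irrefl, false_or, true_and]
    omega
  · have h1 : (b' + 1) * (n + 1) ≤ b * (n + 1) := Nat.mul_le_mul_right _ h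
    have h2 : (b' + 1) * (n + 1) = b' * (n + 1) + n + 1 := by ring
    constructor
    · intro h3
      omega
    · intro h3
      omega

theorem pos_eq {n b i s b' i' s' : ℕ} (hi : i ≤ n) (hi' : i' ≤ n) (hs : s < 8) (hs' : s' < 8) :
    pos n b i s = pos n b' i' s' ↔ b = b' ∧ i = i' ∧ s = s' := by
  have h1 := pos_lt (n := n) (b := b) (b' := b') hi hi' hs hs'
  have h2 := pos_lt (n := n) (b := b') (b' := b) hi' hi hs' hs
  unfold Lx at h1 h2
  constructor
  · intro h
    omega
  · rintro ⟨rfl, rfl, rfl⟩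
    rfl

/-- the number of the left end -/
def lpos (n : ℕ) (e : ℕ × ℕ × ℕ) : ℕ := pos n (lb e.1 e.2.1) (lc e.1 e.2.2) (ls e.1)

/-- the number of the right end -/
def rpos (n : ℕ) (lit : ℕ → ℕ → Bool) (e : ℕ × ℕ × ℕ) : ℕ :=
  pos n (lb e.1 e.2.1 + 1) e.2.2 (rs (al (lit e.2.1 e.2.2)) e.1)

/-- the interval that belongs to a vertex -/
def iv (x : ℕ) : Ivl := (2 * x, 2 * x + 1)

/-- the 2-interval that belongs to an edge -/
def dd (n : ℕ) (lit : ℕ → ℕ → Bool) (e : ℕ × ℕ × ℕ) : TwoIvl := (iv (lpos n e), iv (rpos n lit e))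

theorem ls_lt : ∀ k < 11, ls k < 8 := by decide

theorem rs_lt2 : ∀ k < 11, rs 2 k < 8 := by decide

theorem rs_lt5 : ∀ k < 11, rs 5 k < 8 := by decide

theorem rs_lt {k : ℕ} (hk : k < 11) (b : Bool) : rs (al b) k < 8 := by
  rcases al_cases b with h | h
  · rw [h]
    exact rs_lt2 k hk
  · rw [h]
    exact rs_lt5 k hk

theorem lc_le {n k i : ℕ} (hi : i < n) : lc k i ≤ n := by
  unfold lc
  split_ifs <;> omega

section Graph

variable {n m : ℕ} {lit : ℕ → ℕ → Bool}

theorem bf_iff {e f : ℕ × ℕ × ℕ} (he : Vd n m e) (hf : Vd n m f) :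
    Bf lit e f ↔ lpos n e < lpos n f ∧ rpos n lit e < rpos n lit f ∧ rpos n lit e ≠ lpos n f := by
  unfold Bf lpos rpos
  rw [pos_lt (lc_le he.2.1) (lc_le hf.2.1) (ls_lt _ he.1) (ls_lt _ hf.1),
    pos_lt he.2.1.le hf.2.1.le (rs_lt he.1 _) (rs_lt hf.1 _), ne_eq,
    pos_eq he.2.1.le (lc_le hf.2.1) (rs_lt he.1 _) (ls_lt _ hf.1)]

theorem lpos_lt_rpos {e : ℕ × ℕ × ℕ} (he : Vd n m e) : lpos n e < rpos n lit e := by
  unfold lpos rpos
  rw [pos_lt (lc_le he.2.1) he.2.1.le (ls_lt _ he.1) (rs_lt he.1 _)]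
  exact Or.inl (Nat.lt_succ_self _)

theorem rel_iff {e f : ℕ × ℕ × ℕ} (he : Vd n m e) (hf : Vd n m f) :
    (Disj (dd n lit e) (dd n lit f) ∧
      ((Precedes (dd n lit e) (dd n lit f) ∨ Crosses (dd n lit e) (dd n lit f)) ∨
        (Precedes (dd n lit f) (dd n lit e) ∨ Crosses (dd n lit f) (dd n lit e)))) ↔
      (Bf lit e f ∨ Bf lit f e) := by
  rw [bf_iff he hf, bf_iff hf he]
  have h1 := lpos_lt_rpos (lit := lit) he
  have h2 := lpos_lt_rpos (lit := lit) hf
  unfold Disj Precedes Crosses Apart Lt dd iv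
  simp only
  constructor
  · intro h
    omega
  · intro h
    omega

theorem dd_inj {e f : ℕ × ℕ × ℕ} (he : Vd n m e) (hf : Vd n m f)
    (h : dd n lit e = dd n lit f) : e = f := by
  unfold dd iv at h
  simp only [Prod.mk.injEq] at h
  have h1 : lpos n e = lpos n f := by omega
  have h2 : rpos n lit e = rpos n lit f := by omega
  unfold lpos at h1
  unfold rpos at h2
  rw [pos_eq (lc_le he.2.1) (lc_le hf.2.1) (ls_lt _ he.1) (ls_lt _ hf.1)] at h1
  rw [pos_eq he.2.1.le hf.2.1.le (rs_lt he.1 _) (rs_lt hf.1 _)] at h2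
  obtain ⟨k, j, i⟩ := e
  obtain ⟨k', j', i'⟩ := f
  obtain ⟨hk, hi, hj⟩ := he
  obtain ⟨hk', hi', hj'⟩ := hf
  obtain ⟨h3, h4, h5⟩ := h1
  obtain ⟨-, h6, h7⟩ := h2
  simp only at hk hi hj hk' hi' hj' h3 h4 h5 h6 h7
  subst h6
  have a1 := al_cases (lit j i)
  have a2 := al_cases (lit j' i)
  clear h hi hi'
  generalize al (lit j i) = a at *
  generalize al (lit j' i) = a' at *
  rw [Prod.mk.injEq, Prod.mk.injEq]
  interval_cases k <;> interval_cases k' <;>
    simp only [ls, rs, lb, lc, List.getD_cons_zero, List.getD_cons_succ] at h3 h4 h5 h7 <;>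
    simp at h3 h4 h5 h7 hj hj' <;> omega

theorem rpos_inj {e f : ℕ × ℕ × ℕ} (he : Vd n m e) (hf : Vd n m f)
    (h : rpos n lit e = rpos n lit f) : e = f := by
  unfold rpos at h
  rw [pos_eq he.2.1.le hf.2.1.le (rs_lt he.1 _) (rs_lt hf.1 _)] at h
  obtain ⟨k, j, i⟩ := e
  obtain ⟨k', j', i'⟩ := f
  obtain ⟨hk, hi, hj⟩ := he
  obtain ⟨hk', hi', hj'⟩ := hf
  obtain ⟨h5, h6, h7⟩ := h
  simp only at hk hi hj hk' hi' hj' h5 h6 h7
  subst h6
  have a1 := al_cases (lit j i)
  have a2 := al_cases (lit j' i)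
  clear hi hi'
  generalize al (lit j i) = a at *
  generalize al (lit j' i) = a' at *
  rw [Prod.mk.injEq, Prod.mk.injEq]
  interval_cases k <;> interval_cases k' <;>
    simp only [rs, lb, List.getD_cons_zero, List.getD_cons_succ] at h5 h7 <;>
    simp at h5 h7 hj hj' <;> omega

/-- the label of an edge, for the edges with the same left end -/
def lab (k : ℕ) : Bool := decide (k = 2 ∨ k = 4 ∨ k = 6)

theorem lpos_inj {e f : ℕ × ℕ × ℕ} (he : Vd n m e) (hf : Vd n m f)
    (h : lpos n e = lpos n f) (hl : lab e.1 = lab f.1) : e = f := by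
  unfold lpos at h
  rw [pos_eq (lc_le he.2.1) (lc_le hf.2.1) (ls_lt _ he.1) (ls_lt _ hf.1)] at h
  obtain ⟨k, j, i⟩ := e
  obtain ⟨k', j', i'⟩ := f
  obtain ⟨hk, hi, hj⟩ := he
  obtain ⟨hk', hi', hj'⟩ := hf
  obtain ⟨h5, h6, h7⟩ := h
  simp only at hk hi hj hk' hi' hj' h5 h6 h7 hl
  unfold lab at hl
  rw [Prod.mk.injEq, Prod.mk.injEq]
  interval_cases k <;> interval_cases k' <;>
    simp only [ls, lb, lc, List.getD_cons_zero, List.getD_cons_succ] at h5 h6 h7 <;>
    simp at h5 h6 h7 hj hj' hl <;> omega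

end Graph

/-! ### The family -/

/-- the list of the codes of the edges -/
def codes (n m : ℕ) : List (ℕ × ℕ × ℕ) :=
  ((List.range 11) ×ˢ ((List.range (m + 1)) ×ˢ (List.range n))).filter
    (fun e => decide ((e.1 = 0 ∧ e.2.1 = m) ∨ (e.1 ≠ 0 ∧ e.2.1 < m)))

theorem mem_codes {n m : ℕ} {e : ℕ × ℕ × ℕ} : e ∈ codes n m ↔ Vd n m e := by
  obtain ⟨k, j, i⟩ := e
  unfold codes Vd
  rw [List.mem_filter, List.mem_product, List.mem_product]
  simp only [List.mem_range, decide_eq_true_eq]
  constructor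
  · rintro ⟨⟨h1, h2, h3⟩, h4⟩
    exact ⟨h1, h3, h4⟩
  · rintro ⟨h1, h3, h4⟩
    exact ⟨⟨h1, by omega, h3⟩, h4⟩

theorem codes_nodup (n m : ℕ) : (codes n m).Nodup :=
  (List.nodup_range.product (List.nodup_range.product List.nodup_range)).filter _

/-- the family of 2-intervals -/
def fam (n m : ℕ) (lit : ℕ → ℕ → Bool) : List TwoIvl := (codes n m).map (dd n lit)

theorem fam_ok (n m : ℕ) (lit : ℕ → ℕ → Bool) : Fam (fam n m lit) := by
  refine ⟨List.Nodup.map_on (fun x hx y hy h => dd_inj (mem_codes.1 hx) (mem_codes.1 hy) h)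
    (codes_nodup n m), ?_, ?_⟩
  · intro D hD
    unfold fam at hD
    rw [List.mem_map] at hD
    obtain ⟨e, he, rfl⟩ := hD
    have h1 := lpos_lt_rpos (lit := lit) (mem_codes.1 he)
    unfold IsTwo Lt dd iv
    simp only
    omega
  · have key : ∀ I ∈ ground (fam n m lit), ∃ x, I = iv x := by
      rintro I ⟨D, hD, h⟩
      unfold fam at hD
      rw [List.mem_map] at hD
      obtain ⟨e, he, rfl⟩ := hD
      rcases h with h | h
      · exact ⟨_, h⟩
      · exact ⟨_, h⟩
    intro I hI J hJ hne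
    obtain ⟨x, rfl⟩ := key I hI
    obtain ⟨y, rfl⟩ := key J hJ
    have hxy : x ≠ y := fun h => hne (by rw [h])
    unfold Apart Lt iv
    simp only
    omega

theorem fam_thin (n m : ℕ) (lit : ℕ → ℕ → Bool) : Thin (fam n m lit) := by
  unfold Thin fam
  simp only [List.mem_map]
  constructor
  · rintro _ ⟨e, he, rfl⟩ _ ⟨f, hf, rfl⟩ h
    rw [mem_codes] at he hf
    unfold dd iv at h
    simp only [Prod.mk.injEq] at h
    rw [rpos_inj he hf (show rpos n lit e = rpos n lit f by omega)]
  · rintro _ ⟨e, he, rfl⟩ _ ⟨f, hf, rfl⟩ _ ⟨g, hg, rfl⟩ h h'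
    rw [mem_codes] at he hf hg
    unfold dd iv at h h'
    simp only [Prod.mk.injEq] at h h'
    have h1 : lpos n e = lpos n f := by omega
    have h2 : lpos n e = lpos n g := by omega
    by_cases h3 : lab e.1 = lab f.1
    · exact Or.inl (by rw [lpos_inj he hf h1 h3])
    by_cases h4 : lab e.1 = lab g.1
    · exact Or.inr (Or.inl (by rw [lpos_inj he hg h2 h4]))
    · have h5 : lab f.1 = lab g.1 := by
        revert h3 h4
        cases lab e.1 <;> cases lab f.1 <;> cases lab g.1 <;> decide
      exact Or.inr (Or.inr (by rw [lpos_inj hf hg (h1.symm.trans h2) h5]))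

theorem sub_iff (n m : ℕ) (lit : ℕ → ℕ → Bool) (K : ℕ) :
    HasSol (fam n m lit, K) ↔ ∃ M : Finset (ℕ × ℕ × ℕ), (∀ e ∈ M, Vd n m e) ∧
      (∀ e ∈ M, ∀ f ∈ M, e ≠ f → Bf lit e f ∨ Bf lit f e) ∧ K ≤ M.card := by
  classical
  constructor
  · rintro ⟨S, ⟨hS, hc⟩, hK⟩
    simp only at hS hK
    refine ⟨(codes n m).toFinset.filter (fun e => dd n lit e ∈ S), ?_, ?_, ?_⟩
    · intro e he
      exact mem_codes.1 (List.mem_toFinset.1 (Finset.mem_filter.1 he).1)
    · intro e he f hf hne
      rw [Finset.mem_filter, List.mem_toFinset, mem_codes] at he hf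
      exact (rel_iff he.1 hf.1).1 (hc _ he.2 _ hf.2 fun h => hne (dd_inj he.1 hf.1 h))
    · refine hK.trans ((Finset.card_le_card (t := ((codes n m).toFinset.filter
        (fun e => dd n lit e ∈ S)).image (dd n lit)) ?_).trans Finset.card_image_le)
      intro D hD
      have h1 := hS D hD
      unfold fam at h1
      rw [List.mem_map] at h1
      obtain ⟨e, he, rfl⟩ := h1
      exact Finset.mem_image.2 ⟨e, Finset.mem_filter.2 ⟨List.mem_toFinset.2 he, hD⟩, rfl⟩
  · rintro ⟨M, hv, hM, hK⟩
    refine ⟨M.image (dd n lit), ⟨?_, ?_⟩, ?_⟩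
    · intro D hD
      rw [Finset.mem_image] at hD
      obtain ⟨e, he, rfl⟩ := hD
      exact List.mem_map.2 ⟨e, mem_codes.2 (hv e he), rfl⟩
    · intro D hD D' hD' hne
      rw [Finset.mem_image] at hD hD'
      obtain ⟨e, he, rfl⟩ := hD
      obtain ⟨f, hf, rfl⟩ := hD'
      exact (rel_iff (hv e he) (hv f hf)).2 (hM e he f hf fun h => hne (by rw [h]))
    · simp only
      rw [Finset.card_image_of_injOn]
      · exact hK
      · intro e he f hf h
        exact dd_inj (hv e he) (hv f hf) h

/-! ### The hitting sets -/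

/-- the occurrences of variables -/
def vs (φ : List (List (Bool × ℕ))) : List ℕ := φ.flatten.map Prod.snd

/-- the number of the literals -/
def nn (φ : List (List (Bool × ℕ))) : ℕ := 2 * (vs φ).length

/-- the number of the sets -/
def mm (φ : List (List (Bool × ℕ))) : ℕ := (vs φ).length + φ.length

/-- the renamed clause -/
noncomputable def ren (l : List ℕ) (c : List (Bool × ℕ)) : List (Bool × ℕ) :=
  c.map (fun p => (p.1, index l p.2))

/-- the incidence relation of sets and literals -/
noncomputable def lt (φ : List (List (Bool × ℕ))) (j i : ℕ) : Bool :=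
  if j < (vs φ).length then decide (i / 2 = j)
  else decide ((decide (i % 2 = 1), i / 2) ∈ ren (vs φ) (φ.getD (j - (vs φ).length) []))

variable {φ : List (List (Bool × ℕ))}

theorem index_lt {l : List ℕ} {v : ℕ} (h : v ∈ l) : index l v < l.length := by
  have := getElem?_index h
  exact (List.getElem?_eq_some_iff.1 this).1

theorem mem_vs {c : List (Bool × ℕ)} (hc : c ∈ φ) {p : Bool × ℕ} (hp : p ∈ c) : p.2 ∈ vs φ := by
  unfold vs
  exact List.mem_map.2 ⟨p, List.mem_flatten.2 ⟨c, hc, hp⟩, rfl⟩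

/-- the number of a literal -/
def num (s : Bool) (v : ℕ) : ℕ := 2 * v + (if s = true then 1 else 0)

theorem num_div (s : Bool) (v : ℕ) : num s v / 2 = v := by
  unfold num
  split_ifs <;> omega

theorem num_mod (s : Bool) (v : ℕ) : decide (num s v % 2 = 1) = s := by
  unfold num
  cases s
  · simp
  · simp

theorem num_eq (i : ℕ) : num (decide (i % 2 = 1)) (i / 2) = i := by
  unfold num
  by_cases h : i % 2 = 1
  · simp [h]
    omega
  · simp [h]
    omega

theorem lt_clause {j : ℕ} (hj : j < φ.length) {i : ℕ} :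
    lt φ ((vs φ).length + j) i = true ↔
      ∃ p ∈ φ[j], i = num p.1 (index (vs φ) p.2) := by
  unfold lt
  rw [if_neg (by omega), Nat.add_sub_cancel_left, List.getD_eq_getElem?_getD,
    List.getElem?_eq_getElem hj, Option.getD_some, decide_eq_true_eq]
  unfold ren
  rw [List.mem_map]
  constructor
  · rintro ⟨p, hp, h⟩
    rw [Prod.mk.injEq] at h
    refine ⟨p, hp, ?_⟩
    rw [h.1, h.2, num_eq]
  · rintro ⟨p, hp, rfl⟩
    refine ⟨p, hp, ?_⟩
    rw [num_mod, num_div]

theorem hit_of_sat (h : SAT φ) : ∃ H : Finset ℕ, (∀ i ∈ H, i < nn φ) ∧ H.card ≤ (vs φ).length ∧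
    ∀ j < mm φ, ∃ i ∈ H, lt φ j i = true := by
  obtain ⟨τ, hτ⟩ := h
  refine ⟨(Finset.range (vs φ).length).image (fun v => num (τ ((vs φ).getD v 0)) v), ?_, ?_, ?_⟩
  · intro i hi
    rw [Finset.mem_image] at hi
    obtain ⟨v, hv, rfl⟩ := hi
    rw [Finset.mem_range] at hv
    unfold num nn
    split_ifs <;> omega
  · exact Finset.card_image_le.trans (by rw [Finset.card_range])
  · intro j hj
    unfold mm at hj
    by_cases h1 : j < (vs φ).length
    · refine ⟨_, Finset.mem_image.2 ⟨j, Finset.mem_range.2 h1, rfl⟩, ?_⟩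
      unfold lt
      rw [if_pos h1, num_div]
      simp
    · obtain ⟨j, rfl⟩ : ∃ j', j = (vs φ).length + j' := ⟨j - (vs φ).length, by omega⟩
      have hj' : j < φ.length := by omega
      obtain ⟨p, hp, hp'⟩ := hτ φ[j] (List.getElem_mem hj')
      have hm := mem_vs (List.getElem_mem hj') hp
      refine ⟨_, Finset.mem_image.2 ⟨index (vs φ) p.2, Finset.mem_range.2 (index_lt hm), rfl⟩, ?_⟩
      rw [lt_clause hj']
      refine ⟨p, hp, ?_⟩
      have h4 : (vs φ).getD (index (vs φ) p.2) 0 = p.2 := by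
        rw [List.getD_eq_getElem?_getD, getElem?_index hm]
        rfl
      rw [h4, hp']

theorem sat_of_hit {H : Finset ℕ} (hc : H.card ≤ (vs φ).length)
    (hit : ∀ j < mm φ, ∃ i ∈ H, lt φ j i = true) : SAT φ := by
  classical
  -- the set contains exactly one literal of each variable
  have h1 : Finset.range (vs φ).length ⊆ H.image (fun i => i / 2) := by
    intro v hv
    rw [Finset.mem_range] at hv
    obtain ⟨i, hi, h⟩ := hit v (by unfold mm; omega)
    unfold lt at h
    rw [if_pos hv, decide_eq_true_eq] at h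
    exact Finset.mem_image.2 ⟨i, hi, h⟩
  have h2 : (H.image (fun i => i / 2)).card = H.card := by
    refine le_antisymm Finset.card_image_le ?_
    have := Finset.card_le_card h1
    rw [Finset.card_range] at this
    omega
  have h3 : Set.InjOn (fun i => i / 2) (H : Set ℕ) := Finset.card_image_iff.1 h2
  refine ⟨fun v => decide (num true (index (vs φ) v) ∈ H), fun c hcm => ?_⟩
  obtain ⟨j, hj, rfl⟩ := List.getElem_of_mem hcm
  obtain ⟨i, hi, h⟩ := hit ((vs φ).length + j) (by unfold mm; omega)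
  rw [lt_clause hj] at h
  obtain ⟨p, hp, rfl⟩ := h
  refine ⟨p, hp, ?_⟩
  simp only
  cases hp1 : p.1 with
  | true =>
    rw [hp1] at hi
    exact decide_eq_true hi
  | false =>
    rw [hp1] at hi
    refine decide_eq_false fun hi' => ?_
    have h4 := h3 hi hi' (by simp only [num_div])
    unfold num at h4
    simp at h4

/-! ### The reduction -/

/-- the target -/
def target (φ : List (List (Bool × ℕ))) : ℕ :=
  (vs φ).length + (mm φ * (nn φ + 1) + 3 * (mm φ * nn φ))

/-- the reduction -/
noncomputable def red (φ : List (List (Bool × ℕ))) : Inst :=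
  if [] ∈ φ then ([], 1) else (fam (nn φ) (mm φ) (lt φ), target φ)

theorem red_valid : Valid (red φ) := by
  unfold red
  split_ifs
  · exact ⟨⟨List.nodup_nil, by simp, by simp [ground]⟩, by simp, by simp⟩
  · exact ⟨fam_ok _ _ _, fam_thin _ _ _⟩

/-- **Correctness of the reduction.** -/
theorem red_correct (φ : List (List (Bool × ℕ))) : SAT φ ↔ HasSol (red φ) := by
  unfold red
  split_ifs with h0
  · constructor
    · rintro ⟨τ, hτ⟩
      obtain ⟨p, hp, _⟩ := hτ [] h0
      exact absurd hp List.not_mem_nil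
    · rintro ⟨S, ⟨hS, _⟩, hK⟩
      simp only at hS hK
      obtain ⟨D, hD⟩ := Finset.card_pos.1 hK
      exact absurd (hS D hD) List.not_mem_nil
  · rw [sub_iff]
    have hcaps : ∀ x, target φ ≤ x ↔ caps (nn φ) (mm φ) ≤ x + (vs φ).length := by
      intro x
      unfold target caps
      have : nn φ = 2 * (vs φ).length := rfl
      omega
    simp only [hcaps]
    constructor
    · intro h
      obtain ⟨H, hH, hk, hit⟩ := hit_of_sat h
      exact complete H hH hk hit
    · rintro ⟨M, hv, hM, hK⟩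
      have hne : ∀ j < mm φ, ∃ i < nn φ, lt φ j i = true := by
        intro j hj
        unfold mm at hj
        by_cases h1 : j < (vs φ).length
        · refine ⟨num false j, by unfold nn num; simp; omega, ?_⟩
          unfold lt
          rw [if_pos h1, decide_eq_true_eq, num_div]
        · obtain ⟨j, rfl⟩ : ∃ j', j = (vs φ).length + j' := ⟨j - (vs φ).length, by omega⟩
          have hj' : j < φ.length := by omega
          have hne : φ[j] ≠ [] := by
            intro h
            exact h0 (h ▸ List.getElem_mem hj')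
          obtain ⟨p, hp⟩ := List.exists_mem_of_ne_nil _ hne
          have hm := index_lt (mem_vs (List.getElem_mem hj') hp)
          refine ⟨num p.1 (index (vs φ) p.2), ?_, (lt_clause hj').2 ⟨p, hp, rfl⟩⟩
          unfold num nn
          split_ifs <;> omega
      obtain ⟨H, _, hk, hit⟩ := sound (lit := lt φ) (k := (vs φ).length) hne hv hM hK
      exact sat_of_hit hk hit

/-! ### Polynomial time -/

theorem poly_vs : Poly vs := by
  unfold vs
  fun_prop

theorem uPoly_L : UPoly (fun φ : List (List (Bool × ℕ)) => (vs φ).length) := UPoly.length poly_vs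

theorem uPoly_nn : UPoly nn := by
  unfold nn
  exact UPoly.mul (UPoly.const 2) uPoly_L

theorem uPoly_mm : UPoly mm := by
  unfold mm
  exact UPoly.add uPoly_L (UPoly.length Poly.id)

theorem poly_ren : Poly (fun p : List ℕ × List (Bool × ℕ) => ren p.1 p.2) := by
  unfold ren
  have h : Poly (fun p : (List ℕ × List (Bool × ℕ)) × (Bool × ℕ) => index p.1.1 p.2.2) :=
    Poly.index (by fun_prop) (by fun_prop)
  fun_prop

theorem poly_lt : Poly (fun x : List (List (Bool × ℕ)) × ℕ × ℕ => lt x.1 x.2.1 x.2.2) := by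
  have h2 : Poly (fun x : List (List (Bool × ℕ)) × ℕ × ℕ => vs x.1) :=
    poly_vs.comp (Poly.fst Poly.id)
  have h3 : Poly (fun x : List (List (Bool × ℕ)) × ℕ × ℕ => (vs x.1).length) := Poly.length h2
  have h4 : Poly (fun x : List (List (Bool × ℕ)) × ℕ × ℕ =>
      ren (vs x.1) (x.1.getD (x.2.1 - (vs x.1).length) [])) :=
    poly_ren.comp (f := fun x : List (List (Bool × ℕ)) × ℕ × ℕ =>
      (vs x.1, x.1.getD (x.2.1 - (vs x.1).length) []))
      (Poly.pair h2 (NPC.Poly.getD (by fun_prop) (by fun_prop) (by fun_prop)))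
  unfold lt
  refine Poly.ite (by fun_prop) (by fun_prop) (PP.dec (inst := _) (PP.mem ?_ h4))
  fun_prop

theorem poly_lb {α : Type} [TEnc α] {k j : α → ℕ} (hk : Poly k) (hj : Poly j) :
    Poly (fun a => lb (k a) (j a)) := by
  unfold lb
  exact Poly.ite (by fun_prop) (by fun_prop) (Poly.ite (by fun_prop) (by fun_prop) (by fun_prop))

theorem poly_lc {α : Type} [TEnc α] {k i : α → ℕ} (hk : Poly k) (hi : Poly i) :
    Poly (fun a => lc (k a) (i a)) := by
  unfold lc
  exact Poly.ite (by fun_prop) (by fun_prop) (by fun_prop)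

theorem poly_ls {α : Type} [TEnc α] {k : α → ℕ} (hk : Poly k) : Poly (fun a => ls (k a)) := by
  unfold ls
  exact NPC.Poly.getD (NPC.Poly.const _) hk (NPC.Poly.const _)

theorem poly_rs {α : Type} [TEnc α] {x k : α → ℕ} (hx : Poly x) (hk : Poly k) :
    Poly (fun a => rs (x a) (k a)) := by
  unfold rs
  exact NPC.Poly.getD (NPC.Poly.cons (NPC.Poly.const _) (NPC.Poly.cons hx (NPC.Poly.const _))) hk
    (NPC.Poly.const _)

theorem poly_al {α : Type} [TEnc α] {b : α → Bool} (hb : Poly b) : Poly (fun a => al (b a)) := by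
  unfold al
  exact Poly.ite (by fun_prop) (by fun_prop) (by fun_prop)

theorem poly_pos {α : Type} [TEnc α] {n b i s : α → ℕ} (hn : Poly n) (hb : Poly b) (hi : Poly i)
    (hs : Poly s) : Poly (fun a => pos (n a) (b a) (i a) (s a)) := by
  unfold pos
  fun_prop

theorem poly_dd : Poly (fun x : List (List (Bool × ℕ)) × (ℕ × ℕ × ℕ) =>
    dd (nn x.1) (lt x.1) x.2) := by
  have hn : Poly (fun x : List (List (Bool × ℕ)) × (ℕ × ℕ × ℕ) => nn x.1) :=
    (uPoly_nn.toPoly).comp (Poly.fst Poly.id)
  have hl : Poly (fun x : List (List (Bool × ℕ)) × (ℕ × ℕ × ℕ) =>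
      lpos (nn x.1) x.2) := by
    unfold lpos
    exact poly_pos hn (poly_lb (by fun_prop) (by fun_prop)) (poly_lc (by fun_prop) (by fun_prop))
      (poly_ls (by fun_prop))
  have hb : Poly (fun x : List (List (Bool × ℕ)) × (ℕ × ℕ × ℕ) =>
      lb x.2.1 x.2.2.1) := poly_lb (by fun_prop) (by fun_prop)
  have ht : Poly (fun x : List (List (Bool × ℕ)) × (ℕ × ℕ × ℕ) =>
      lt x.1 x.2.2.1 x.2.2.2) :=
    poly_lt.comp (f := fun x : List (List (Bool × ℕ)) × (ℕ × ℕ × ℕ) =>
      (x.1, x.2.2.1, x.2.2.2)) (by fun_prop)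
  have hr : Poly (fun x : List (List (Bool × ℕ)) × (ℕ × ℕ × ℕ) =>
      rpos (nn x.1) (lt x.1) x.2) := by
    unfold rpos
    exact poly_pos hn (by fun_prop) (by fun_prop) (poly_rs (poly_al ht) (by fun_prop))
  unfold dd iv
  fun_prop

theorem poly_codes : Poly (fun φ : List (List (Bool × ℕ)) => codes (nn φ) (mm φ)) := by
  unfold codes
  have hm : Poly (fun x : List (List (Bool × ℕ)) × (ℕ × ℕ × ℕ) => mm x.1) :=
    (uPoly_mm.toPoly).comp (Poly.fst Poly.id)
  refine NPC.Poly.filter (p := fun (φ : List (List (Bool × ℕ))) (e : ℕ × ℕ × ℕ) =>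
    decide ((e.1 = 0 ∧ e.2.1 = mm φ) ∨ (e.1 ≠ 0 ∧ e.2.1 < mm φ)))
    (R671.poly_product (NPC.Poly.const _) (R671.poly_product
      (UPoly.add uPoly_mm (UPoly.const 1)).range uPoly_nn.range)) ?_
  exact PP.dec (inst := _) (PP.or (PP.and (PP.eq (by fun_prop) (by fun_prop))
    (PP.eq (by fun_prop) hm)) (PP.and (PP.ne (by fun_prop) (by fun_prop))
    (PP.lt (by fun_prop) hm)))

theorem red_poly : Poly red := by
  have hn : Poly nn := uPoly_nn.toPoly
  have hm : Poly mm := uPoly_mm.toPoly
  have hL : Poly (fun φ : List (List (Bool × ℕ)) => (vs φ).length) := uPoly_L.toPoly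
  have hfam : Poly (fun φ : List (List (Bool × ℕ)) => fam (nn φ) (mm φ) (lt φ)) := by
    unfold fam
    exact NPC.Poly.map (F := fun φ e => dd (nn φ) (lt φ) e) poly_codes poly_dd
  have ht : Poly target := by
    unfold target
    fun_prop
  unfold red
  exact PP.ite (inst := _) (PP.mem (NPC.Poly.const _) Poly.id) (NPC.Poly.const _)
    (Poly.pair hfam ht)

theorem hard : NPHardOn Valid HasSol :=
  npHardOn_of hardI_SAT.toHardPr red_poly (fun _ _ => red_valid) fun φ _ => red_correct φ

/-! ### Membership in NP -/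

/-- the relation between the members of a comparable set -/
def Rel (D D' : TwoIvl) : Prop :=
  Disj D D' ∧ ((Precedes D D' ∨ Crosses D D') ∨ (Precedes D' D ∨ Crosses D' D))

/-- the intervals are equal or do not intersect -/
def EqApart (I J : Ivl) : Prop := I = J ∨ Apart I J

/-- the valid families, in terms of the list -/
def FamL (F : List TwoIvl) : Prop :=
  F.Nodup ∧ (∀ D ∈ F, IsTwo D) ∧ ∀ D ∈ F, ∀ D' ∈ F,
    (EqApart D.1 D'.1 ∧ EqApart D.1 D'.2) ∧ (EqApart D.2 D'.1 ∧ EqApart D.2 D'.2)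

theorem famL_iff (F : List TwoIvl) : FamL F ↔ Fam F := by
  unfold FamL Fam
  refine and_congr_right fun _ => and_congr_right fun _ => ?_
  constructor
  · rintro h I ⟨D, hD, hI⟩ J ⟨D', hD', hJ⟩ hne
    have h1 := h D hD D' hD'
    rcases hI with rfl | rfl <;> rcases hJ with rfl | rfl
    · exact h1.1.1.resolve_left hne
    · exact h1.1.2.resolve_left hne
    · exact h1.2.1.resolve_left hne
    · exact h1.2.2.resolve_left hne
  · intro h D hD D' hD'
    have key : ∀ I ∈ ground F, ∀ J ∈ ground F, EqApart I J := by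
      intro I hI J hJ
      by_cases hIJ : I = J
      · exact Or.inl hIJ
      · exact Or.inr (h I hI J hJ hIJ)
    exact ⟨⟨key _ ⟨D, hD, Or.inl rfl⟩ _ ⟨D', hD', Or.inl rfl⟩,
      key _ ⟨D, hD, Or.inl rfl⟩ _ ⟨D', hD', Or.inr rfl⟩⟩,
      ⟨key _ ⟨D, hD, Or.inr rfl⟩ _ ⟨D', hD', Or.inl rfl⟩,
      key _ ⟨D, hD, Or.inr rfl⟩ _ ⟨D', hD', Or.inr rfl⟩⟩⟩

section PPs

variable {α : Type} [TEnc α]

theorem pp_lt' {I J : α → Ivl} (hI : Poly I) (hJ : Poly J) : PP (fun a => Lt (I a) (J a)) := by
  unfold Lt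
  exact PP.lt (by fun_prop) (by fun_prop)

theorem pp_apart {I J : α → Ivl} (hI : Poly I) (hJ : Poly J) :
    PP (fun a => Apart (I a) (J a)) := by
  unfold Apart
  exact PP.or (pp_lt' hI hJ) (pp_lt' hJ hI)

theorem pp_eqApart {I J : α → Ivl} (hI : Poly I) (hJ : Poly J) :
    PP (fun a => EqApart (I a) (J a)) := by
  unfold EqApart
  exact PP.or (PP.eq hI hJ) (pp_apart hI hJ)

theorem pp_isTwo {D : α → TwoIvl} (hD : Poly D) : PP (fun a => IsTwo (D a)) := by
  unfold IsTwo
  exact PP.and (PP.le (by fun_prop) (by fun_prop)) (PP.and (PP.le (by fun_prop) (by fun_prop))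
    (pp_lt' (by fun_prop) (by fun_prop)))

theorem pp_rel {D D' : α → TwoIvl} (hD : Poly D) (hD' : Poly D') :
    PP (fun a => Rel (D a) (D' a)) := by
  have h1 : Poly (fun a => (D a).1) := Poly.fst hD
  have h2 : Poly (fun a => (D a).2) := Poly.snd hD
  have h3 : Poly (fun a => (D' a).1) := Poly.fst hD'
  have h4 : Poly (fun a => (D' a).2) := Poly.snd hD'
  unfold Rel Disj Precedes Crosses
  refine PP.and (PP.and (pp_apart h1 h3) (PP.and (pp_apart h1 h4) (PP.and (pp_apart h2 h3)
    (pp_apart h2 h4)))) (PP.or (PP.or ?_ ?_) (PP.or ?_ ?_))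
  · exact PP.and (pp_lt' h1 h2) (PP.and (pp_lt' h2 h3) (pp_lt' h3 h4))
  · exact PP.and (pp_lt' h1 h3) (PP.and (pp_lt' h3 h2) (pp_lt' h2 h4))
  · exact PP.and (pp_lt' h3 h4) (PP.and (pp_lt' h4 h1) (pp_lt' h1 h2))
  · exact PP.and (pp_lt' h3 h1) (PP.and (pp_lt' h1 h4) (pp_lt' h4 h2))

theorem pp_famL {F : α → List TwoIvl} (hF : Poly F) : PP (fun a => FamL (F a)) := by
  unfold FamL
  refine PP.and (pp_nodup hF) (PP.and ?_ ?_)
  · exact PP.ball (r := fun _ (D : TwoIvl) => IsTwo D) hF (pp_isTwo (by fun_prop))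
  · refine PP.ball (r := fun a (D : TwoIvl) => ∀ D' ∈ F a,
      (EqApart D.1 D'.1 ∧ EqApart D.1 D'.2) ∧ (EqApart D.2 D'.1 ∧ EqApart D.2 D'.2)) hF ?_
    refine PP.ball (l := fun x : α × TwoIvl => F x.1) (r := fun (x : α × TwoIvl) (D' : TwoIvl) =>
      (EqApart x.2.1 D'.1 ∧ EqApart x.2.1 D'.2) ∧ (EqApart x.2.2 D'.1 ∧ EqApart x.2.2 D'.2))
      (hF.comp (Poly.fst Poly.id)) ?_
    exact PP.and (PP.and (pp_eqApart (by fun_prop) (by fun_prop))
      (pp_eqApart (by fun_prop) (by fun_prop))) (PP.and (pp_eqApart (by fun_prop) (by fun_prop))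
      (pp_eqApart (by fun_prop) (by fun_prop)))

end PPs

theorem pp_thin {α : Type} [TEnc α] {F : α → List TwoIvl} (hF : Poly F) :
    PP (fun a => Thin (F a)) := by
  have key : ∀ L : List TwoIvl, ((∀ D ∈ L, ∀ D' ∈ L, ¬ D.2 = D'.2 ∨ D = D') ∧
      ∀ D ∈ L, ∀ D' ∈ L, ∀ D'' ∈ L, ¬ D.1 = D'.1 ∨ (¬ D.1 = D''.1 ∨ (D = D' ∨ (D = D'' ∨ D' = D''))))
      ↔ Thin L := by
    intro L
    unfold Thin
    constructor
    · rintro ⟨h1, h2⟩
      refine ⟨fun D hD D' hD' h => (h1 D hD D' hD').resolve_left (not_not_intro h), ?_⟩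
      intro D hD D' hD' D'' hD'' h h'
      exact ((h2 D hD D' hD' D'' hD'').resolve_left (not_not_intro h)).resolve_left
        (not_not_intro h')
    · rintro ⟨h1, h2⟩
      refine ⟨fun D hD D' hD' => ?_, fun D hD D' hD' D'' hD'' => ?_⟩
      · by_cases h : D.2 = D'.2
        · exact Or.inr (h1 D hD D' hD' h)
        · exact Or.inl h
      · by_cases h : D.1 = D'.1
        · by_cases h' : D.1 = D''.1
          · exact Or.inr (Or.inr (h2 D hD D' hD' D'' hD'' h h'))
          · exact Or.inr (Or.inl h')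
        · exact Or.inl h
  refine PP.congr ?_ (fun a => key (F a))
  refine PP.and ?_ ?_
  · refine PP.ball (r := fun a (D : TwoIvl) => ∀ D' ∈ F a, ¬ D.2 = D'.2 ∨ D = D') hF ?_
    refine PP.ball (l := fun x : α × TwoIvl => F x.1) (r := fun (x : α × TwoIvl) (D' : TwoIvl) =>
      ¬ x.2.2 = D'.2 ∨ x.2 = D') (hF.comp (Poly.fst Poly.id)) ?_
    exact PP.or (PP.not (PP.eq (by fun_prop) (by fun_prop))) (PP.eq (by fun_prop) (by fun_prop))
  · refine PP.ball (r := fun a (D : TwoIvl) => ∀ D' ∈ F a, ∀ D'' ∈ F a,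
      ¬ D.1 = D'.1 ∨ (¬ D.1 = D''.1 ∨ (D = D' ∨ (D = D'' ∨ D' = D'')))) hF ?_
    refine PP.ball (l := fun x : α × TwoIvl => F x.1) (r := fun (x : α × TwoIvl) (D' : TwoIvl) =>
      ∀ D'' ∈ F x.1, ¬ x.2.1 = D'.1 ∨ (¬ x.2.1 = D''.1 ∨ (x.2 = D' ∨ (x.2 = D'' ∨ D' = D''))))
      (hF.comp (Poly.fst Poly.id)) ?_
    refine PP.ball (l := fun x : (α × TwoIvl) × TwoIvl => F x.1.1)
      (r := fun (x : (α × TwoIvl) × TwoIvl) (D'' : TwoIvl) =>
        ¬ x.1.2.1 = x.2.1 ∨ (¬ x.1.2.1 = D''.1 ∨ (x.1.2 = x.2 ∨ (x.1.2 = D'' ∨ x.2 = D''))))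
      (hF.comp (Poly.fst (Poly.fst Poly.id))) ?_
    exact PP.or (PP.not (PP.eq (by fun_prop) (by fun_prop))) (PP.or (PP.not (PP.eq (by fun_prop)
      (by fun_prop))) (PP.or (PP.eq (by fun_prop) (by fun_prop)) (PP.or (PP.eq (by fun_prop)
      (by fun_prop)) (PP.eq (by fun_prop) (by fun_prop)))))

/-- the test of a certificate -/
def Chk (q : Inst × List TwoIvl) : Prop :=
  (FamL q.1.1 ∧ Thin q.1.1) ∧ q.2.Nodup ∧ (∀ D ∈ q.2, D ∈ q.1.1) ∧ (∀ D ∈ q.2, ∀ D' ∈ q.2, D = D' ∨ Rel D D') ∧
    q.1.2 ≤ q.2.length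

theorem pp_chk : PP Chk := by
  unfold Chk
  refine PP.and (PP.and (pp_famL (by fun_prop)) (pp_thin (by fun_prop)))
    (PP.and (pp_nodup (by fun_prop)) (PP.and ?_ (PP.and ?_
    (PP.le (by fun_prop) (by fun_prop)))))
  · exact PP.ball (l := fun q : Inst × List TwoIvl => q.2)
      (r := fun (q : Inst × List TwoIvl) (D : TwoIvl) => D ∈ q.1.1) (by fun_prop)
      (PP.mem (by fun_prop) (by fun_prop))
  · refine PP.ball (l := fun q : Inst × List TwoIvl => q.2)
      (r := fun (q : Inst × List TwoIvl) (D : TwoIvl) => ∀ D' ∈ q.2, D = D' ∨ Rel D D')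
      (by fun_prop) ?_
    refine PP.ball (l := fun q : (Inst × List TwoIvl) × TwoIvl => q.1.2)
      (r := fun (q : (Inst × List TwoIvl) × TwoIvl) (D' : TwoIvl) => q.2 = D' ∨ Rel q.2 D')
      (by fun_prop) ?_
    exact PP.or (PP.eq (by fun_prop) (by fun_prop)) (pp_rel (by fun_prop) (by fun_prop))

theorem inNP : InNPP (fun I : Inst => Valid I ∧ HasSol I) := by
  obtain ⟨R, hR, hR'⟩ := pp_chk
  refine inNPP_of hR Polynomial.X fun I => ?_
  simp only [hR', Polynomial.eval_X]
  constructor
  · rintro ⟨hv, S, ⟨hS, hc⟩, hK⟩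
    have hmem : ∀ D, D ∈ I.1.filter (fun D => decide (D ∈ S)) ↔ D ∈ S := by
      intro D
      rw [List.mem_filter, decide_eq_true_eq]
      exact ⟨fun h => h.2, fun h => ⟨hS D h, h⟩⟩
    refine ⟨I.1.filter (fun D => decide (D ∈ S)), ?_, ⟨(famL_iff _).2 hv.1, hv.2⟩,
      hv.1.1.filter _, ?_, ?_, ?_⟩
    · refine (sz_filter_le _ _).trans ?_
      obtain ⟨F, K⟩ := I
      simp only [sz_pair]
      omega
    · intro D hD
      exact (List.mem_filter.1 hD).1
    · intro D hD D' hD'
      rw [hmem] at hD hD'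
      by_cases h : D = D'
      · exact Or.inl h
      · exact Or.inr (hc D hD D' hD' h)
    · refine hK.trans ((Finset.card_le_card (t := (I.1.filter
        (fun D => decide (D ∈ S))).toFinset) ?_).trans (List.toFinset_card_le _))
      intro D hD
      exact List.mem_toFinset.2 ((hmem D).2 hD)
  · rintro ⟨w, -, hv, hw, hS, hc, hK⟩
    simp only at hv hw hS hc hK
    refine ⟨⟨(famL_iff _).1 hv.1, hv.2⟩, w.toFinset, ⟨?_, ?_⟩, ?_⟩
    · intro D hD
      exact hS D (List.mem_toFinset.1 hD)
    · intro D hD D' hD' hne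
      exact (hc D (List.mem_toFinset.1 hD) D' (List.mem_toFinset.1 hD')).resolve_left hne
    · rw [List.toFinset_card_of_nodup hw]
      exact hK

/-! ### The result -/

/-- `S` is a comparable subset of `F` of maximum cardinality. -/
def IsMaximum (F : List TwoIvl) (S : Finset TwoIvl) : Prop :=
  Sub F S ∧ ∀ S' : Finset TwoIvl, Sub F S' → S'.card ≤ S.card

/-- A function that decides, for a finite set `F` of 2-intervals with disjoint interval ground set
for which each interval is the right interval of at most one member and the left interval of at most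
two members, and a number `K`, whether `F` has a comparable subset with at least `K` members. -/
def Decides (A : List Bool → List Bool) : Prop :=
  ∀ I, Valid I → (A (bits I) = [true] ↔ HasSol I)

/-- A function that outputs, for each finite set of 2-intervals with disjoint interval ground set for
which each interval is the right interval of at most one member and the left interval of at most two
members, a comparable subset of maximum cardinality (as a list without repetition). -/
def Solves (A : List Bool → List Bool) : Prop :=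
  ∀ F, Fam F → Thin F → ∃ w : List TwoIvl, A (bits F) = bits w ∧ w.Nodup ∧ IsMaximum F w.toFinset

theorem no_decider (hne : PneNP) : ¬ ∃ A : List Bool → List Bool, PolyTime A ∧ Decides A := by
  obtain ⟨L, hL, hL'⟩ := hne
  rintro ⟨A, hA, hd⟩
  apply hL'
  obtain ⟨g, hg, hgp, hgL⟩ := hard L hL
  exact ⟨fun x => A (bits (g x)),
    H642R2.TMSim.polyTime_comp (g := A) (f := fun x => bits (g x)) hA hg,
    fun x => (hgL x).trans (hd _ (hgp x)).symm⟩

theorem no_solver (hne : PneNP) : ¬ ∃ A : List Bool → List Bool, PolyTime A ∧ Solves A := by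
  obtain ⟨L, hL, hL'⟩ := hne
  rintro ⟨A, hA, hs⟩
  apply hL'
  obtain ⟨g, hg, hgp, hgL⟩ := hard L hL
  have hA' : Poly A := Med.poly_of_polyTime hA
  have hG : Poly (fun x => bits (g x)) := Med.poly_of_polyTime hg
  have hu : Poly (fun x => unbits Inst (bits (g x))) := poly_unbits.comp hG
  have hin : Poly (fun p : List Bool × Inst =>
      match unbits (List TwoIvl) (A (bits p.2.1)) with
      | none => false
      | some w => decide (p.2.2 ≤ w.length)) :=
    (Poly.optCases (o := fun p : List Bool × Inst => unbits (List TwoIvl) (A (bits p.2.1)))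
      (g := fun _ => false) (h := fun (p : List Bool × Inst) (w : List TwoIvl) =>
        decide (p.2.2 ≤ w.length))
      (poly_unbits.comp (hA'.comp (Med.poly_bits.comp (f := fun p : List Bool × Inst => p.2.1)
        (by fun_prop)))) (NPC.Poly.const _)
      (Poly.decide_le (by fun_prop) (by fun_prop))).congr fun p => by
        cases unbits (List TwoIvl) (A (bits p.2.1)) <;> rfl
  have ht : Poly (fun x : List Bool => match unbits Inst (bits (g x)) with
      | none => false
      | some I => match unbits (List TwoIvl) (A (bits I.1)) with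
        | none => false
        | some w => decide (I.2 ≤ w.length)) :=
    (Poly.optCases (o := fun x : List Bool => unbits Inst (bits (g x))) (g := fun _ => false)
      (h := fun (_ : List Bool) (I : Inst) => match unbits (List TwoIvl) (A (bits I.1)) with
        | none => false
        | some w => decide (I.2 ≤ w.length)) hu (NPC.Poly.const _) hin).congr fun x => by
          cases unbits Inst (bits (g x)) <;> rfl
  refine ⟨_, polyTime_of_poly ht, fun x => ?_⟩
  obtain ⟨w, hw, hn, hsub, hmax⟩ := hs (g x).1 (hgp x).1 (hgp x).2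
  rw [hgL x, unbits_bits]
  simp only
  rw [hw, unbits_bits]
  simp only [List.cons.injEq, and_true, decide_eq_true_eq]
  rw [← List.toFinset_card_of_nodup hn]
  constructor
  · rintro ⟨S, hS, hK⟩
    exact hK.trans (hmax S hS)
  · intro h
    exact ⟨w.toFinset, hsub, h⟩

/-- **The 2-interval-pattern problem for the model `{<, ≬}` over disjoint ground sets is
`NP`-complete, even if each interval is the right interval of at most one 2-interval and the left
interval of at most two 2-intervals of the given set** (so the graph on the ground set whose edges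
are the given 2-intervals is a forest with maximum degree at most three). The problem is: given a
finite set of 2-intervals with disjoint interval ground set (with this property) and a number `K`,
is there a `{<, ≬}`-comparable subset with at least `K` members? The set of the yes-instances is in
`NP` and it is `NP`-hard under polynomial-time many-one reductions; moreover each language in `NP`
reduces to the problem by a reduction which only produces valid instances. In particular, if
`P ≠ NP` then no polynomial-time algorithm decides the problem, and no polynomial-time algorithm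
outputs, for every finite set of 2-intervals with disjoint interval ground set (and with this
property), a comparable subset of maximum cardinality. -/
theorem result :
    InNPP (fun I : Inst => Valid I ∧ HasSol I) ∧
    NPHardP (fun I : Inst => Valid I ∧ HasSol I) ∧
    NPHardOn Valid HasSol ∧
    (PneNP → ¬ ∃ A : List Bool → List Bool, PolyTime A ∧ Decides A) ∧
    (PneNP → ¬ ∃ A : List Bool → List Bool, PolyTime A ∧ Solves A) ∧
    (∀ I, Valid I → (graph I.1).IsAcyclic ∧ ∀ J, {L | (graph I.1).Adj J L}.ncard ≤ 3) :=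
  ⟨inNP, npHardP_and hard, hard, no_decider, no_solver,
    fun _ h => ⟨acyclic h.1.2.1 h.2.1, ncard_le h.2.1 h.2.2⟩⟩

end Pool.Agent.Results.MP_8c0258_lc.ForestNPComplete
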